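import Pool.Agent.P8H15.FG.Stm

/-! # Project FG, package SAVE: the singular series on average over the multiples of an even modulus -/

set_option autoImplicit false

namespace Pool.Agent.P8H69.FG

open Finset
open Pool.Agent.P8H15.FG
open Pool.Agent.H560R3.GB (sing C₂)

theorem hh_nonneg (d : ℕ) : 0 ≤ hh d := by
  unfold hh
  split_ifs with h
  · refine Finset.prod_nonneg fun p hp => ?_
    have hpp := Nat.prime_of_mem_primeFactors hp
    have hpd := Nat.dvd_of_mem_primeFactors hp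
    have h2 : p ≠ 2 := by
      rintro rfl
      exact (Nat.not_even_iff_odd.2 h.2) (even_iff_two_dvd.2 hpd)
    have h3 : 3 ≤ p := by
      have := hpp.two_le
      omega
    have h4 : (3 : ℝ) ≤ p := by exact_mod_cast h3
    apply div_nonneg zero_le_one
    linarith
  · exact le_refl _

theorem hh_one : hh 1 = 1 := by
  unfold hh
  rw [if_pos ⟨squarefree_one, odd_one⟩]
  simp

theorem sum_lin (x a : ℝ) (n : ℕ) :
    ∑ m ∈ Icc 1 n, (x - a * m) = n * x - a * (n * (n + 1) / 2) := by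
  induction n with
  | zero => simp
  | succ n ih =>
    rw [Finset.sum_Icc_succ_top (by omega), ih]
    push_cast
    ring

/-- The inner sum. -/
theorem inner (X k M d : ℕ) (hk : 1 ≤ k) (hM : M = X / k) (hd : 1 ≤ d) (hdM : d ≤ M) :
    |∑ m ∈ Icc 1 (M / d), ((X : ℝ) - (d * m : ℕ) * k) - (X : ℝ) ^ 2 / (2 * (d * k))| ≤ (X : ℝ) := by
  obtain ⟨n, hn⟩ : ∃ n : ℕ, n = M / d := ⟨_, rfl⟩
  have hn1 : 1 ≤ n := by
    rw [hn]
    exact Nat.div_pos hdM hd
  have h1 : n * d ≤ M := by
    rw [hn]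
    exact Nat.div_mul_le_self M d
  have h2 : M < n * d + d := by
    rw [hn]
    exact Nat.lt_div_mul_add hd (a := M)
  have h3 : M * k ≤ X := by
    rw [hM]
    exact Nat.div_mul_le_self X k
  have h4 : X < M * k + k := by
    rw [hM]
    exact Nat.lt_div_mul_add hk (a := X)
  obtain ⟨a, ha⟩ : ∃ a : ℝ, a = (d : ℝ) * k := ⟨_, rfl⟩
  have hd0 : (1 : ℝ) ≤ d := by exact_mod_cast hd
  have hk0 : (1 : ℝ) ≤ k := by exact_mod_cast hk
  have ha0 : 0 < a := by
    rw [ha]
    positivity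
  have h5 : (n : ℝ) * a ≤ X := by
    have : n * (d * k) ≤ X := by
      calc n * (d * k) = (n * d) * k := by ring
        _ ≤ M * k := Nat.mul_le_mul_right k h1
        _ ≤ X := h3
    rw [ha]
    exact_mod_cast this
  have h6 : (X : ℝ) ≤ n * a + a := by
    have : X ≤ n * (d * k) + d * k := by
      have h7 : M + 1 ≤ n * d + d := h2
      calc X ≤ M * k + k := h4.le
        _ = (M + 1) * k := by ring
        _ ≤ (n * d + d) * k := Nat.mul_le_mul_right k h7
        _ = n * (d * k) + d * k := by ring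
    rw [ha]
    exact_mod_cast this
  have hnr : (1 : ℝ) ≤ n := by exact_mod_cast hn1
  have hs : ∑ m ∈ Icc 1 (M / d), ((X : ℝ) - (d * m : ℕ) * k) = n * X - a * (n * (n + 1) / 2) := by
    rw [← hn, ← sum_lin]
    refine sum_congr rfl fun m _ => ?_
    rw [ha]
    push_cast
    ring
  rw [hs, ← ha]
  have h8 : (n : ℝ) * X - a * (n * (n + 1) / 2) - (X : ℝ) ^ 2 / (2 * a)
      = - ((((X : ℝ) - n * a) ^ 2 + n * a ^ 2) / (2 * a)) := by
    field_simp
    ring
  rw [h8, abs_neg, abs_of_nonneg (by positivity), div_le_iff₀ (by positivity)]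
  have h9 : ((X : ℝ) - n * a) ^ 2 ≤ a ^ 2 := by
    apply pow_le_pow_left₀ (by linarith)
    linarith
  have h10 : a ^ 2 ≤ n * a ^ 2 := by
    have : 0 ≤ a ^ 2 := sq_nonneg a
    nlinarith [mul_nonneg (sub_nonneg.2 hnr) this]
  have h11 : (n : ℝ) * a ^ 2 ≤ X * a := by
    have := mul_le_mul_of_nonneg_right h5 ha0.le
    calc (n : ℝ) * a ^ 2 = n * a * a := by ring
      _ ≤ X * a := this
  linarith [h9, h10, h11]

theorem swap (M k : ℕ) (g : ℕ → ℝ) :
    ∑ j ∈ Icc 1 M, (∑ d ∈ j.divisors.filter (fun d => d.Coprime k), hh d) * g j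
      = ∑ d ∈ (Icc 1 M).filter (fun d => d.Coprime k),
          hh d * ∑ m ∈ Icc 1 (M / d), g (d * m) := by
  calc _ = ∑ j ∈ Icc 1 M, ∑ d ∈ j.divisors.filter (fun d => d.Coprime k), hh d * g j := by
        refine sum_congr rfl fun j _ => ?_
        rw [Finset.sum_mul]
    _ = ∑ d ∈ (Icc 1 M).filter (fun d => d.Coprime k),
          ∑ j ∈ (Icc 1 M).filter (fun j => d ∣ j), hh d * g j := by
        refine Finset.sum_comm' fun j d => ?_
        simp only [mem_filter, mem_Icc, Nat.mem_divisors]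
        constructor
        · rintro ⟨⟨h1, h2⟩, ⟨h3, h4⟩, h5⟩
          exact ⟨⟨⟨h1, h2⟩, h3⟩, ⟨Nat.pos_of_dvd_of_pos h3 h1, (Nat.le_of_dvd h1 h3).trans h2⟩, h5⟩
        · rintro ⟨⟨⟨h1, h2⟩, h3⟩, ⟨h4, h5⟩, h6⟩
          exact ⟨⟨h1, h2⟩, ⟨h3, by omega⟩, h6⟩
    _ = _ := by
        refine sum_congr rfl fun d hd => ?_
        rw [mem_filter, mem_Icc] at hd
        have hd1 : 0 < d := hd.1.1
        rw [← Finset.mul_sum]
        congr 1
        have himg : (Icc 1 M).filter (fun j => d ∣ j) = (Icc 1 (M / d)).image (fun m => d * m) := by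
          ext j
          simp only [mem_filter, mem_Icc, mem_image]
          constructor
          · rintro ⟨⟨h1, h2⟩, c, rfl⟩
            refine ⟨c, ⟨?_, ?_⟩, rfl⟩
            · exact Nat.pos_of_mul_pos_left h1 |> fun h => by
                rcases Nat.eq_zero_or_pos c with h0 | h0
                · rw [h0] at h1
                  simp at h1
                · exact h0
            · rw [Nat.le_div_iff_mul_le hd1, Nat.mul_comm]
              exact h2
          · rintro ⟨c, ⟨h1, h2⟩, rfl⟩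
            rw [Nat.le_div_iff_mul_le hd1, Nat.mul_comm] at h2
            exact ⟨⟨Nat.mul_pos hd1 h1, h2⟩, dvd_mul_right d c⟩
        rw [himg, Finset.sum_image]
        intro a _ b _ hab
        exact Nat.eq_of_mul_eq_mul_left hd1 hab

/-- The tail. -/
theorem tail (C : ℝ) (hC : 0 < C) (hH : ∀ D : ℕ, 1 ≤ D → ∑ d ∈ Icc 1 D, hh d ≤ C * (1 + Real.log D))
    (M : ℕ) (hM : 1 ≤ M) (n : ℕ) :
    ∑ d ∈ Ioc M (2 ^ n * M), hh d / d ≤
      C * (1 + Real.log M) / M * (6 - (2 * n + 6) / 2 ^ n) := by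
  have hMr : (1 : ℝ) ≤ M := by exact_mod_cast hM
  have hlog : 0 ≤ Real.log M := Real.log_nonneg hMr
  induction n with
  | zero => simp
  | succ n ih =>
    have hp1 : M ≤ 2 ^ n * M := Nat.le_mul_of_pos_left M (by positivity)
    have hp2 : 2 ^ n * M ≤ 2 ^ (n + 1) * M :=
      Nat.mul_le_mul_right M (Nat.pow_le_pow_right (by norm_num) (by omega))
    rw [← Finset.sum_Ioc_consecutive _ hp1 hp2]
    have hq : (0 : ℝ) < 2 ^ n * M := by positivity
    have h1 : ∑ d ∈ Ioc (2 ^ n * M) (2 ^ (n + 1) * M), hh d / d ≤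
        (C * (1 + Real.log (2 ^ (n + 1) * M : ℕ))) / (2 ^ n * M) := by
      calc ∑ d ∈ Ioc (2 ^ n * M) (2 ^ (n + 1) * M), hh d / d
          ≤ ∑ d ∈ Ioc (2 ^ n * M) (2 ^ (n + 1) * M), hh d / (2 ^ n * M) := by
            refine sum_le_sum fun d hd => ?_
            rw [mem_Ioc] at hd
            apply div_le_div_of_nonneg_left (hh_nonneg d) hq
            exact_mod_cast hd.1.le
        _ = (∑ d ∈ Ioc (2 ^ n * M) (2 ^ (n + 1) * M), hh d) / (2 ^ n * M) := by
            rw [Finset.sum_div]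
        _ ≤ (∑ d ∈ Icc 1 (2 ^ (n + 1) * M), hh d) / (2 ^ n * M) := by
            apply div_le_div_of_nonneg_right _ hq.le
            refine sum_le_sum_of_subset_of_nonneg ?_ fun d _ _ => hh_nonneg d
            intro d hd
            rw [mem_Ioc] at hd
            rw [mem_Icc]
            exact ⟨by omega, hd.2⟩
        _ ≤ _ := by
            apply div_le_div_of_nonneg_right _ hq.le
            exact hH _ (le_trans hM (hp1.trans hp2))
    have h2 : Real.log (2 ^ (n + 1) * M : ℕ) ≤ (n + 1) + Real.log M := by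
      push_cast
      rw [Real.log_mul (by positivity) (by positivity), Real.log_pow]
      have : Real.log 2 ≤ 1 := by
        have := Real.log_two_lt_d9
        linarith
      have h3 : ((n + 1 : ℕ) : ℝ) * Real.log 2 ≤ (n + 1 : ℕ) * 1 :=
        mul_le_mul_of_nonneg_left this (by positivity)
      push_cast at h3 ⊢
      linarith
    have h3 : 1 + Real.log (2 ^ (n + 1) * M : ℕ) ≤ (n + 2) * (1 + Real.log M) := by
      have : 0 ≤ (n : ℝ) * Real.log M := by positivity
      nlinarith [h2, this, hlog]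
    have h4 : (C * (1 + Real.log (2 ^ (n + 1) * M : ℕ))) / (2 ^ n * M) ≤
        C * (1 + Real.log M) / M * ((n + 2) / 2 ^ n) := by
      have h5 : C * (1 + Real.log M) / M * ((n + 2) / 2 ^ n)
          = (C * ((n + 2) * (1 + Real.log M))) / (2 ^ n * M) := by
        field_simp
      rw [h5]
      apply div_le_div_of_nonneg_right _ hq.le
      exact mul_le_mul_of_nonneg_left h3 hC.le
    have h6 : C * (1 + Real.log M) / M * (6 - (2 * ((n + 1 : ℕ) : ℝ) + 6) / 2 ^ (n + 1))
        = C * (1 + Real.log M) / M * (6 - (2 * n + 6) / 2 ^ n)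
          + C * (1 + Real.log M) / M * ((n + 2) / 2 ^ n) := by
      rw [← mul_add]
      congr 1
      rw [pow_succ]
      push_cast
      field_simp
      ring
    rw [h6]
    linarith [ih, h1, h4]

theorem save : S_HSU → S_EXP → S_EUL → S_SAVE := by
  rintro ⟨C, hC, hH⟩ hEXP hEUL
  refine ⟨14 * C, by positivity, fun X k hk hev hkX => ?_⟩
  obtain ⟨hsum, hts⟩ := hEUL k hk hev
  obtain ⟨f, hf⟩ : ∃ f : ℕ → ℝ, f = fun d : ℕ => if d.Coprime k then hh d / d else 0 := ⟨_, rfl⟩
  have hfn : ∀ d, 0 ≤ f d := by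
    intro d
    rw [hf]
    show (0 : ℝ) ≤ if d.Coprime k then hh d / d else 0
    split_ifs with h
    · exact div_nonneg (hh_nonneg d) (Nat.cast_nonneg d)
    · exact le_refl _
  have hfle : ∀ d, f d ≤ hh d / d := by
    intro d
    rw [hf]
    show (if d.Coprime k then hh d / d else 0) ≤ hh d / (d : ℝ)
    split_ifs with h
    · exact le_refl _
    · exact div_nonneg (hh_nonneg d) (Nat.cast_nonneg d)
  rw [← hf] at hsum hts
  have hf1 : f 1 = 1 := by
    rw [hf]
    show (if (1 : ℕ).Coprime k then hh 1 / ((1 : ℕ) : ℝ) else 0) = 1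
    rw [if_pos (Nat.coprime_one_left k), hh_one]
    simp
  have hf0 : f 0 = 0 := by
    rw [hf]
    show (if (0 : ℕ).Coprime k then hh 0 / ((0 : ℕ) : ℝ) else 0) = 0
    simp
  have ht1 : 1 ≤ ∑' d, f d := by
    rw [← hf1]
    exact hsum.le_tsum 1 fun j _ => hfn j
  have hφ : (0 : ℝ) < Nat.totient k := by exact_mod_cast Nat.totient_pos.2 hk
  have hk0 : (0 : ℝ) < k := by exact_mod_cast hk
  have hX0 : (0 : ℝ) < X := by exact_mod_cast (lt_of_lt_of_le hk hkX)
  have hsg : 0 < sing k := by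
    by_contra hneg
    push Not at hneg
    have h1 : sing k * ∑' d, f d ≤ 0 := mul_nonpos_of_nonpos_of_nonneg hneg (by linarith)
    rw [hts] at h1
    have : 0 < (k : ℝ) / Nat.totient k := by positivity
    linarith
  have hsgle : sing k ≤ (k : ℝ) / Nat.totient k := by
    rw [← hts]
    nlinarith [mul_nonneg hsg.le (sub_nonneg.2 ht1)]
  obtain ⟨M, hM⟩ : ∃ M : ℕ, M = X / k := ⟨_, rfl⟩
  have hM1 : 1 ≤ M := by
    rw [hM]
    exact Nat.div_pos hkX hk
  have hMr : (1 : ℝ) ≤ M := by exact_mod_cast hM1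
  have hMk : M * k ≤ X := by
    rw [hM]
    exact Nat.div_mul_le_self X k
  have hXM : X < M * k + k := by
    rw [hM]
    exact Nat.lt_div_mul_add hk (a := X)
  have hMkr : (M : ℝ) * k ≤ X := by exact_mod_cast hMk
  have hXMr : (X : ℝ) ≤ 2 * M * k := by
    have h1 : (X : ℝ) ≤ M * k + k := by exact_mod_cast hXM.le
    have h2 : (k : ℝ) ≤ M * k := by
      have := mul_le_mul_of_nonneg_right hMr hk0.le
      linarith
    linarith
  have hlM : 0 ≤ Real.log M := Real.log_nonneg hMr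
  have hlog : Real.log M ≤ Real.log ((X : ℝ) / k) := by
    apply Real.log_le_log (by linarith)
    rw [le_div_iff₀ hk0]
    exact hMkr
  -- the finite sum
  obtain ⟨P, hP⟩ : ∃ P : ℝ, P = ∑ d ∈ (Icc 1 M).filter (fun d => d.Coprime k), hh d / d := ⟨_, rfl⟩
  have hPf : P = ∑ d ∈ Icc 1 M, f d := by
    rw [hP, Finset.sum_filter, hf]
  have hA : ∑ j ∈ Icc 1 (X / k), sing (j * k) * ((X : ℝ) - j * k)
      = sing k * ∑ d ∈ (Icc 1 M).filter (fun d => d.Coprime k),
          hh d * ∑ m ∈ Icc 1 (M / d), ((X : ℝ) - (d * m : ℕ) * k) := by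
    rw [← hM, ← swap M k fun j => ((X : ℝ) - j * k), Finset.mul_sum]
    refine sum_congr rfl fun j hj => ?_
    rw [mem_Icc] at hj
    rw [hEXP j k hj.1 hk hev]
    ring
  have hAe : |∑ d ∈ (Icc 1 M).filter (fun d => d.Coprime k),
          hh d * ∑ m ∈ Icc 1 (M / d), ((X : ℝ) - (d * m : ℕ) * k) - (X : ℝ) ^ 2 / (2 * k) * P|
      ≤ X * (C * (1 + Real.log M)) := by
    rw [hP, Finset.mul_sum, ← Finset.sum_sub_distrib]
    refine (Finset.abs_sum_le_sum_abs _ _).trans ?_
    calc ∑ d ∈ (Icc 1 M).filter (fun d => d.Coprime k),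
          |hh d * ∑ m ∈ Icc 1 (M / d), ((X : ℝ) - (d * m : ℕ) * k) - (X : ℝ) ^ 2 / (2 * k) * (hh d / d)|
        ≤ ∑ d ∈ (Icc 1 M).filter (fun d => d.Coprime k), X * hh d := by
          refine sum_le_sum fun d hd => ?_
          rw [mem_filter, mem_Icc] at hd
          have hd0 : (0 : ℝ) < d := by exact_mod_cast hd.1.1
          have h1 : hh d * ∑ m ∈ Icc 1 (M / d), ((X : ℝ) - (d * m : ℕ) * k)
                - (X : ℝ) ^ 2 / (2 * k) * (hh d / d)
              = hh d * (∑ m ∈ Icc 1 (M / d), ((X : ℝ) - (d * m : ℕ) * k)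
                - (X : ℝ) ^ 2 / (2 * (d * k))) := by
            rw [mul_sub]
            congr 1
            field_simp
          rw [h1, abs_mul, abs_of_nonneg (hh_nonneg d), mul_comm]
          exact mul_le_mul_of_nonneg_right (inner X k M d hk hM hd.1.1 hd.1.2) (hh_nonneg d)
      _ = X * ∑ d ∈ (Icc 1 M).filter (fun d => d.Coprime k), hh d := by rw [Finset.mul_sum]
      _ ≤ X * ∑ d ∈ Icc 1 M, hh d := by
          apply mul_le_mul_of_nonneg_left _ hX0.le
          exact sum_le_sum_of_subset_of_nonneg (filter_subset _ _) fun d _ _ => hh_nonneg d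
      _ ≤ _ := mul_le_mul_of_nonneg_left (hH M hM1) hX0.le
  -- the tail
  have hT1 : P ≤ ∑' d, f d := by
    rw [hPf]
    exact hsum.sum_le_tsum _ fun j _ => hfn j
  have hT2 : ∑' d, f d ≤ P + 6 * (C * (1 + Real.log M) / M) := by
    refine Real.tsum_le_of_sum_range_le hfn fun n => ?_
    have hsub : range n ⊆ insert 0 (Icc 1 M ∪ Ioc M (2 ^ n * M)) := by
      intro d hd
      rw [mem_range] at hd
      rw [mem_insert, mem_union, mem_Icc, mem_Ioc]
      have h1 : n < 2 ^ n := Nat.lt_two_pow_self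
      have h2 : 2 ^ n ≤ 2 ^ n * M := Nat.le_mul_of_pos_right _ (by omega)
      omega
    have h1 : ∑ d ∈ range n, f d ≤ ∑ d ∈ insert 0 (Icc 1 M ∪ Ioc M (2 ^ n * M)), f d :=
      sum_le_sum_of_subset_of_nonneg hsub fun d _ _ => hfn d
    have h2 : ∑ d ∈ insert 0 (Icc 1 M ∪ Ioc M (2 ^ n * M)), f d
        = ∑ d ∈ Icc 1 M, f d + ∑ d ∈ Ioc M (2 ^ n * M), f d := by
      rw [Finset.sum_insert, hf0, zero_add, Finset.sum_union]
      · rw [Finset.disjoint_left]
        intro d hd hd'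
        rw [mem_Icc] at hd
        rw [mem_Ioc] at hd'
        omega
      · rw [mem_union, mem_Icc, mem_Ioc]
        omega
    have h3 : ∑ d ∈ Ioc M (2 ^ n * M), f d ≤ ∑ d ∈ Ioc M (2 ^ n * M), hh d / d :=
      sum_le_sum fun d _ => hfle d
    have h4 := tail C hC hH M hM1 n
    have h5 : C * (1 + Real.log M) / M * (6 - (2 * n + 6) / 2 ^ n) ≤
        6 * (C * (1 + Real.log M) / M) := by
      have h6 : 0 ≤ C * (1 + Real.log M) / M * ((2 * n + 6) / 2 ^ n) := by positivity
      rw [mul_sub]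
      linarith
    rw [h2] at h1
    rw [hPf]
    linarith
  -- assembly
  rw [hA]
  have hX2 : (X : ℝ) ^ 2 / Nat.totient k = sing k * ((X : ℝ) ^ 2 / k * ∑' d, f d) := by
    calc (X : ℝ) ^ 2 / Nat.totient k = (X : ℝ) ^ 2 / k * ((k : ℝ) / Nat.totient k) := by
          field_simp
      _ = (X : ℝ) ^ 2 / k * (sing k * ∑' d, f d) := by rw [hts]
      _ = _ := by ring
  rw [hX2]
  obtain ⟨Q, hQ⟩ : ∃ Q : ℝ, Q = ∑ d ∈ (Icc 1 M).filter (fun d => d.Coprime k),
          hh d * ∑ m ∈ Icc 1 (M / d), ((X : ℝ) - (d * m : ℕ) * k) := ⟨_, rfl⟩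
  rw [← hQ] at hAe ⊢
  obtain ⟨T, hT⟩ : ∃ T : ℝ, T = ∑' d, f d := ⟨_, rfl⟩
  rw [← hT] at hT1 hT2 ⊢
  have hW : |(X : ℝ) ^ 2 / k * P - (X : ℝ) ^ 2 / k * T| ≤ 12 * (X * (C * (1 + Real.log M))) := by
    rw [← mul_sub, abs_mul, abs_of_nonneg (by positivity), abs_sub_comm, abs_of_nonneg (by linarith)]
    have h1 : T - P ≤ 6 * (C * (1 + Real.log M) / M) := by linarith
    calc (X : ℝ) ^ 2 / k * (T - P) ≤ (X : ℝ) ^ 2 / k * (6 * (C * (1 + Real.log M) / M)) :=
          mul_le_mul_of_nonneg_left h1 (by positivity)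
      _ = (X * (6 * (C * (1 + Real.log M)))) * (X / (M * k)) := by
          field_simp
      _ ≤ (X * (6 * (C * (1 + Real.log M)))) * 2 := by
          apply mul_le_mul_of_nonneg_left _ (by positivity)
          rw [div_le_iff₀ (by positivity)]
          linarith
      _ = _ := by ring
  have hfin : |2 * (sing k * Q) - sing k * ((X : ℝ) ^ 2 / k * T)| ≤
      sing k * (14 * (X * (C * (1 + Real.log M)))) := by
    have h1 : 2 * (sing k * Q) - sing k * ((X : ℝ) ^ 2 / k * T)
        = sing k * (2 * (Q - (X : ℝ) ^ 2 / (2 * k) * P)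
          + ((X : ℝ) ^ 2 / k * P - (X : ℝ) ^ 2 / k * T)) := by
      have : (X : ℝ) ^ 2 / (2 * k) * P * 2 = (X : ℝ) ^ 2 / k * P := by
        field_simp
      linear_combination (- sing k) * this
    rw [h1, abs_mul, abs_of_nonneg hsg.le]
    apply mul_le_mul_of_nonneg_left _ hsg.le
    refine (abs_add_le _ _).trans ?_
    rw [abs_mul, abs_of_nonneg (by norm_num : (0 : ℝ) ≤ 2)]
    linarith
  refine hfin.trans ?_
  have hY : 0 ≤ 14 * (X * (C * (1 + Real.log M))) := by positivity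
  calc sing k * (14 * (X * (C * (1 + Real.log M))))
      ≤ (k : ℝ) / Nat.totient k * (14 * (X * (C * (1 + Real.log M)))) :=
        mul_le_mul_of_nonneg_right hsgle hY
    _ ≤ (k : ℝ) / Nat.totient k * (14 * (X * (C * (1 + Real.log ((X : ℝ) / k))))) := by
        apply mul_le_mul_of_nonneg_left _ (by positivity)
        apply mul_le_mul_of_nonneg_left _ (by norm_num)
        apply mul_le_mul_of_nonneg_left _ hX0.le
        apply mul_le_mul_of_nonneg_left _ hC.le
        linarith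
    _ = _ := by ring

end Pool.Agent.P8H69.FG
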